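import Mathlib

/-!
# Algebraic entropy and invariant uniform discrete subgroups

For a continuous endomorphism `φ` of a locally compact abelian group and a `φ`-invariant discrete
subgroup `K` with compact quotient, the algebraic entropy of `φ` equals that of its restriction
to `K`.
-/

set_option autoImplicit false

open MeasureTheory Filter Topology
open scoped Pointwise

namespace Pool.Agent.Results.MP_5d7a45_an.UniformDiscrete

/-- The `n`-th trajectory `U + φ(U) + ... + φ^(n-1)(U)`. -/
def T {G : Type*} [AddCommGroup G] (φ : G →+ G) (U : Set G) (n : ℕ) : Set G :=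
  ∑ i ∈ Finset.range n, (⇑φ)^[i] '' U

/-- `H_A(φ, U)`, the upper limit of `log μ (T_n(φ, U)) / n`. -/
noncomputable def HA {G : Type*} [AddCommGroup G] [MeasurableSpace G] (μ : Measure G)
    (φ : G →+ G) (U : Set G) : EReal :=
  limsup (fun n : ℕ => ((Real.log (μ (T φ U n)).toReal / n : ℝ) : EReal)) atTop

/-- The algebraic entropy: the supremum of `H_A(φ, U)` over the compact neighbourhoods `U` of
zero. -/
noncomputable def hA {G : Type*} [AddCommGroup G] [TopologicalSpace G] [MeasurableSpace G]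
    (μ : Measure G) (φ : G →+ G) : EReal :=
  ⨆ (U : Set G) (_ : IsCompact U) (_ : U ∈ 𝓝 (0 : G)), HA μ φ U

/-- The restriction of an endomorphism to an invariant subgroup. -/
def restr {G : Type*} [AddCommGroup G] (φ : G →+ G) (K : AddSubgroup G)
    (hK : ∀ x ∈ K, φ x ∈ K) : K →+ K :=
  (φ.comp K.subtype).codRestrict K fun x => hK x x.2

section

variable {G : Type*} [AddCommGroup G]

lemma T_zero (φ : G →+ G) (U : Set G) : T φ U 0 = {0} := by
  unfold T
  rw [Finset.sum_range_zero, Set.singleton_zero]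

lemma image_T (φ : G →+ G) (U : Set G) (n : ℕ) :
    φ '' (T φ U n) = ∑ i ∈ Finset.range n, (⇑φ)^[i + 1] '' U := by
  induction n with
  | zero =>
    rw [T_zero, Finset.sum_range_zero, Set.image_singleton, map_zero, Set.singleton_zero]
  | succ n ih =>
    have h1 : T φ U (n + 1) = T φ U n + (⇑φ)^[n] '' U := by
      unfold T
      rw [Finset.sum_range_succ]
    rw [h1, Set.image_add, ih, Finset.sum_range_succ, ← Set.image_comp, Function.iterate_succ' φ n]

lemma T_succ (φ : G →+ G) (U : Set G) (n : ℕ) : T φ U (n + 1) = U + φ '' (T φ U n) := by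
  rw [image_T]
  unfold T
  rw [Finset.sum_range_succ']
  simp only [Function.iterate_zero, Set.image_id]
  rw [add_comm]

lemma T_mono (φ : G →+ G) {U V : Set G} (h : U ⊆ V) (n : ℕ) : T φ U n ⊆ T φ V n := by
  induction n with
  | zero => rw [T_zero, T_zero]
  | succ n ih =>
    rw [T_succ, T_succ]
    exact Set.add_subset_add h (Set.image_mono ih)

lemma T_finite (φ : G →+ G) {U : Set G} (h : U.Finite) (n : ℕ) : (T φ U n).Finite := by
  induction n with
  | zero => rw [T_zero]; exact Set.finite_singleton _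
  | succ n ih =>
    rw [T_succ]
    exact h.add (ih.image _)

lemma zero_mem_T (φ : G →+ G) {U : Set G} (h : (0 : G) ∈ U) (n : ℕ) : (0 : G) ∈ T φ U n := by
  induction n with
  | zero => rw [T_zero]; rfl
  | succ n ih =>
    rw [T_succ]
    exact ⟨0, h, 0, ⟨0, ih, map_zero _⟩, by simp⟩

lemma T_compact [TopologicalSpace G] [IsTopologicalAddGroup G] (φ : G →+ G) (hφ : Continuous φ)
    {U : Set G} (h : IsCompact U) (n : ℕ) : IsCompact (T φ U n) := by
  induction n with
  | zero => rw [T_zero]; exact isCompact_singleton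
  | succ n ih =>
    rw [T_succ]
    exact h.add (ih.image hφ)

variable (φ : G →+ G) (K : AddSubgroup G) (hK : ∀ x ∈ K, φ x ∈ K)

lemma coe_restr (x : K) : ((restr φ K hK x : K) : G) = φ x := rfl

lemma coe_image_restr (S : Set K) :
    ((↑) : K → G) '' (restr φ K hK '' S) = φ '' (((↑) : K → G) '' S) := by
  rw [← Set.image_comp, ← Set.image_comp]
  rfl

lemma coe_image_add (S S' : Set K) :
    ((↑) : K → G) '' (S + S') = ((↑) : K → G) '' S + ((↑) : K → G) '' S' := by
  exact Set.image_add K.subtype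

/-- The upper inclusion. -/
lemma T_subset {U : Set G} (h0 : (0 : G) ∈ U) {F : Set K}
    (hF : U + φ '' U ⊆ U + ((↑) : K → G) '' F) (n : ℕ) :
    T φ U n ⊆ U + ((↑) : K → G) '' (T (restr φ K hK) F n) := by
  induction n with
  | zero =>
    rw [T_zero, T_zero]
    rintro x rfl
    exact ⟨0, h0, 0, ⟨0, rfl, rfl⟩, by simp⟩
  | succ n ih =>
    rw [T_succ, T_succ]
    have h1 : φ '' (T φ U n) ⊆ φ '' U + ((↑) : K → G) '' (restr φ K hK '' T (restr φ K hK) F n) := by
      rw [coe_image_restr, ← Set.image_add]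
      exact Set.image_mono ih
    calc U + φ '' (T φ U n)
        ⊆ U + (φ '' U + ((↑) : K → G) '' (restr φ K hK '' T (restr φ K hK) F n)) :=
          Set.add_subset_add_left h1
      _ = (U + φ '' U) + ((↑) : K → G) '' (restr φ K hK '' T (restr φ K hK) F n) := by
          rw [add_assoc]
      _ ⊆ (U + ((↑) : K → G) '' F) +
            ((↑) : K → G) '' (restr φ K hK '' T (restr φ K hK) F n) :=
          Set.add_subset_add_right hF
      _ = U + ((↑) : K → G) '' (F + restr φ K hK '' T (restr φ K hK) F n) := by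
          rw [coe_image_add, add_assoc]

/-- The lower inclusion. -/
lemma subset_T {V : Set G} (h0 : (0 : G) ∈ V) (F : Set K) (n : ℕ) :
    ((↑) : K → G) '' (T (restr φ K hK) F n) ⊆ T φ (V + ((↑) : K → G) '' F) n := by
  induction n with
  | zero =>
    rw [T_zero, T_zero]
    rintro x ⟨y, rfl, rfl⟩
    rfl
  | succ n ih =>
    rw [T_succ, T_succ, coe_image_add, coe_image_restr]
    refine Set.add_subset_add ?_ (Set.image_mono ih)
    intro x hx
    exact ⟨0, h0, x, hx, by simp⟩

lemma subset_T_succ {V : Set G} (h0 : (0 : G) ∈ V) (F : Set K) (n : ℕ) :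
    V + ((↑) : K → G) '' (T (restr φ K hK) F (n + 1)) ⊆ T φ (V + ((↑) : K → G) '' F) (n + 1) := by
  rw [T_succ, T_succ, coe_image_add, coe_image_restr, ← add_assoc]
  exact Set.add_subset_add_left (Set.image_mono (subset_T φ K hK h0 F n))

end

section

variable {G : Type*} [AddCommGroup G] [TopologicalSpace G] [IsTopologicalAddGroup G] [T2Space G]
  [LocallyCompactSpace G] [MeasurableSpace G] [BorelSpace G] (μ : Measure G) [μ.IsAddHaarMeasure]
  (φ : G →+ G) (K : AddSubgroup G)

lemma measure_image_add (U : Set G) (s : G) : μ ((fun x => x + s) '' U) = μ U := by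
  rw [Set.image_add_right, measure_preimage_add_right]

lemma upper_measure (U : Set G) (S : Finset K) :
    μ (U + ((↑) : K → G) '' (S : Set K)) ≤ S.card * μ U := by
  have h1 : U + ((↑) : K → G) '' (S : Set K) ⊆ ⋃ s ∈ S, (fun x => x + (s : G)) '' U := by
    rintro x ⟨u, hu, y, ⟨s, hs, rfl⟩, rfl⟩
    simp only [Set.mem_iUnion]
    exact ⟨s, hs, u, hu, rfl⟩
  calc μ (U + ((↑) : K → G) '' (S : Set K)) ≤ μ (⋃ s ∈ S, (fun x => x + (s : G)) '' U) :=
        measure_mono h1
    _ ≤ ∑ s ∈ S, μ ((fun x => x + (s : G)) '' U) := measure_biUnion_finset_le _ _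
    _ = S.card * μ U := by
        simp only [measure_image_add, Finset.sum_const, nsmul_eq_mul]

lemma lower_measure {V : Set G} (hV : IsCompact V)
    (hd : ∀ x ∈ V, ∀ y ∈ V, x - y ∈ K → x = y) (S : Finset K) :
    S.card * μ V ≤ μ (V + ((↑) : K → G) '' (S : Set K)) := by
  have h1 : ⋃ s ∈ S, (fun x => x + (s : G)) '' V ⊆ V + ((↑) : K → G) '' (S : Set K) := by
    intro x hx
    simp only [Set.mem_iUnion] at hx
    obtain ⟨s, hs, u, hu, rfl⟩ := hx
    exact ⟨u, hu, s, ⟨s, hs, rfl⟩, rfl⟩
  refine le_trans (le_of_eq ?_) (measure_mono h1)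
  rw [measure_biUnion_finset]
  · simp only [measure_image_add, Finset.sum_const, nsmul_eq_mul]
  · intro s _ t _ hst
    rw [Function.onFun, Set.disjoint_left]
    rintro x ⟨u, hu, rfl⟩ ⟨v, hv, hvx⟩
    apply hst
    have h2 : v - u = s - t := by
      have : v + (t : G) = u + s := hvx
      rw [sub_eq_sub_iff_add_eq_add, this, add_comm]
    have h3 : v = u := hd v hv u hu (by rw [h2]; exact (s - t).2)
    rw [h3, sub_self] at h2
    exact Subtype.ext (sub_eq_zero.1 h2.symm)
  · intro s _
    exact (hV.image (continuous_add_const _)).measurableSet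

lemma discrete_measure [DiscreteTopology K] (ν : Measure K) [ν.IsAddHaarMeasure]
    (S : Finset K) : ν (S : Set K) = S.card * ν {0} := by
  have h1 : ∀ s : K, ν {s} = ν {0} := by
    intro s
    have h2 := measure_preimage_add_right ν (-s) {(0 : K)}
    rw [← h2]
    congr 1
    ext x
    simp
  have h3 : ν (S : Set K) = ∑ s ∈ S, ν {s} := by
    rw [← measure_biUnion_finset (fun s _ t _ hst => by simpa using hst)
      (fun s _ => MeasurableSet.singleton s)]
    congr 1
    ext x
    simp
  rw [h3]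
  simp only [h1, Finset.sum_const, nsmul_eq_mul]

/-- A compact set of representatives. -/
lemma exists_compact_cover [CompactSpace (G ⧸ K)] :
    ∃ C : Set G, IsCompact C ∧ ∀ x : G, ∃ c ∈ C, x - c ∈ K := by
  have h1 : ∀ y : G ⧸ K, ∃ C : Set G, IsCompact C ∧ (QuotientAddGroup.mk '' C : Set (G ⧸ K)) ∈ 𝓝 y := by
    intro y
    obtain ⟨x, rfl⟩ := QuotientAddGroup.mk_surjective y
    obtain ⟨C, hC, hCx⟩ := exists_compact_mem_nhds x
    refine ⟨C, hC, ?_⟩
    exact QuotientAddGroup.isOpenMap_coe.image_mem_nhds hCx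
  choose C hC hCn using h1
  obtain ⟨t, -, ht⟩ := isCompact_univ.elim_nhds_subcover (fun y => QuotientAddGroup.mk '' C y)
    (fun y _ => hCn y)
  refine ⟨⋃ y ∈ t, C y, t.isCompact_biUnion fun y _ => hC y, fun x => ?_⟩
  have h2 := ht (Set.mem_univ (QuotientAddGroup.mk x : G ⧸ K))
  simp only [Set.mem_iUnion] at h2
  obtain ⟨y, hy, c, hc, hcx⟩ := h2
  refine ⟨c, ?_, ?_⟩
  · simp only [Set.mem_iUnion]
    exact ⟨y, hy, hc⟩
  · have := QuotientAddGroup.eq.1 hcx
    rw [sub_eq_neg_add]
    exact this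

/-- A compact neighbourhood of zero whose differences avoid the nonzero elements of `K`. -/
lemma exists_small [DiscreteTopology K] : ∃ V : Set G, IsCompact V ∧ V ∈ 𝓝 (0 : G) ∧
    ∀ x ∈ V, ∀ y ∈ V, x - y ∈ K → x = y := by
  obtain ⟨W, hW, hWK⟩ := (discreteTopology_subtype_iff'.1 (inferInstance : DiscreteTopology K)) 0
    K.zero_mem
  have hW0 : W ∈ 𝓝 (0 : G) := hW.mem_nhds (by
    have : (0 : G) ∈ W ∩ K := by rw [hWK]; rfl
    exact this.1)
  have h1 : (fun p : G × G => p.1 - p.2) ⁻¹' W ∈ 𝓝 ((0 : G), (0 : G)) := by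
    apply (continuous_fst.sub continuous_snd).continuousAt
    simpa using hW0
  rw [nhds_prod_eq, mem_prod_self_iff] at h1
  obtain ⟨V', hV', hVW⟩ := h1
  obtain ⟨V, hV, hVV', hVc⟩ := LocallyCompactSpace.local_compact_nhds 0 V' hV'
  refine ⟨V, hVc, hV, fun x hx y hy hxy => ?_⟩
  have h2 : x - y ∈ W := hVW (Set.mk_mem_prod (hVV' hx) (hVV' hy))
  have h3 : x - y ∈ W ∩ K := ⟨h2, hxy⟩
  rw [hWK] at h3
  exact sub_eq_zero.1 h3

end

lemma limsup_compare (a b : ℕ → ℝ) (c : ℝ) (h : ∀ᶠ n in atTop, a n ≤ b n + c) :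
    limsup (fun n : ℕ => ((a n / n : ℝ) : EReal)) atTop ≤
      limsup (fun n : ℕ => ((b n / n : ℝ) : EReal)) atTop := by
  have h1 : limsup (fun n : ℕ => ((a n / n : ℝ) : EReal)) atTop ≤
      limsup ((fun n : ℕ => ((c / n : ℝ) : EReal)) + fun n : ℕ => ((b n / n : ℝ) : EReal))
        atTop := by
    apply limsup_le_limsup
    · filter_upwards [h, eventually_gt_atTop 0] with n hn hn0
      rw [Pi.add_apply, ← EReal.coe_add, EReal.coe_le_coe_iff, ← add_div]
      have : (0 : ℝ) < n := by exact_mod_cast hn0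
      gcongr
      linarith
    · isBoundedDefault
    · isBoundedDefault
  have h2 : limsup (fun n : ℕ => ((c / n : ℝ) : EReal)) atTop = 0 := by
    apply Tendsto.limsup_eq
    have : Tendsto (fun n : ℕ => (c / n : ℝ)) atTop (𝓝 0) := tendsto_const_div_atTop_nhds_zero_nat c
    exact_mod_cast (continuous_coe_real_ereal.tendsto 0).comp this
  refine h1.trans ((EReal.limsup_add_le ?_ ?_).trans ?_)
  · left; rw [h2]; exact EReal.zero_ne_bot
  · left; rw [h2]; exact EReal.zero_ne_top
  · rw [h2, zero_add]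

section

variable {G : Type*} [AddCommGroup G] [TopologicalSpace G] [IsTopologicalAddGroup G] [T2Space G]
  [LocallyCompactSpace G] [MeasurableSpace G] [BorelSpace G] (μ : Measure G) [μ.IsAddHaarMeasure]
  (φ : G →+ G) (K : AddSubgroup G) (hK : ∀ x ∈ K, φ x ∈ K)

lemma haar_pos {U : Set G} (hn : U ∈ 𝓝 (0 : G)) : 0 < μ U :=
  Measure.measure_pos_of_mem_nhds μ hn

lemma log_discrete [DiscreteTopology K] (ν : Measure K) [ν.IsAddHaarMeasure] {S : Set K}
    (hS : S.Finite) (h0 : (0 : K) ∈ S) :
    Real.log (ν S).toReal = Real.log (hS.toFinset.card : ℝ) + Real.log (ν {0}).toReal := by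
  have hpos : 0 < hS.toFinset.card := Finset.card_pos.2 ⟨0, by simpa using h0⟩
  have h1 : ν S = hS.toFinset.card * ν {0} := by
    conv_lhs => rw [← hS.coe_toFinset]
    exact discrete_measure K ν _
  have h2 : 0 < ν {(0 : K)} := Measure.measure_pos_of_mem_nhds ν (by
    rw [nhds_discrete]; exact mem_pure.2 rfl)
  have h3 : ν {(0 : K)} < ⊤ := isCompact_singleton.measure_lt_top
  rw [h1, ENNReal.toReal_mul, ENNReal.toReal_natCast, Real.log_mul]
  · exact_mod_cast hpos.ne'
  · exact (ENNReal.toReal_pos h2.ne' h3.ne).ne'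

lemma upper [DiscreteTopology K] [CompactSpace (G ⧸ K)] (hφ : Continuous φ)
    (ν : Measure K) [ν.IsAddHaarMeasure] : hA μ φ ≤ hA ν (restr φ K hK) := by
  unfold hA
  refine iSup_le fun U => iSup_le fun hU => iSup_le fun hUn => ?_
  obtain ⟨C, hC, hCK⟩ := exists_compact_cover K
  set U' := U ∪ C with hU'
  have hU'c : IsCompact U' := hU.union hC
  have hU'n : U' ∈ 𝓝 (0 : G) := mem_of_superset hUn Set.subset_union_left
  have h0 : (0 : G) ∈ U' := mem_of_mem_nhds hU'n
  set D : Set G := U' + φ '' U' - U' with hD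
  have hDc : IsCompact D := by
    rw [hD, sub_eq_add_neg]
    exact (hU'c.add (hU'c.image hφ)).add hU'c.neg
  set F : Set K := (↑) ⁻¹' D with hF
  have hKc : IsClosed (K : Set G) := AddSubgroup.isClosed_of_discrete
  have hFfin : F.Finite := by
    have hemb : IsClosedEmbedding ((↑) : K → G) := hKc.isClosedEmbedding_subtypeVal
    exact (hemb.isCompact_preimage hDc).finite_of_discrete
  have hF0 : (0 : K) ∈ F := by
    refine ⟨0, ⟨0, h0, 0, ⟨0, h0, map_zero _⟩, by simp⟩, 0, h0, by simp⟩
  have hcov : U' + φ '' U' ⊆ U' + ((↑) : K → G) '' F := by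
    intro x hx
    obtain ⟨c, hc, hcx⟩ := hCK x
    refine ⟨c, Or.inr hc, x - c, ⟨⟨x - c, hcx⟩, ?_, rfl⟩, by simp⟩
    exact ⟨x, hx, c, Or.inr hc, rfl⟩
  have hTfin : ∀ n, (T (restr φ K hK) F n).Finite := fun n => T_finite _ hFfin n
  have hT0 : ∀ n, (0 : K) ∈ T (restr φ K hK) F n := fun n => zero_mem_T _ hF0 n
  have hU'0 : 0 < μ U' := haar_pos μ hU'n
  have hU't : μ U' < ⊤ := hU'c.measure_lt_top
  have hmain : ∀ n : ℕ, 1 ≤ n → Real.log (μ (T φ U n)).toReal ≤
      Real.log (ν (T (restr φ K hK) F n)).toReal +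
        (Real.log (μ U').toReal - Real.log (ν {0}).toReal) := by
    intro n hn
    rw [log_discrete K ν (hTfin n) (hT0 n)]
    have hpos : 0 < (hTfin n).toFinset.card := Finset.card_pos.2 ⟨0, by simpa using hT0 n⟩
    have h1 : μ (T φ U n) ≤ (hTfin n).toFinset.card * μ U' := by
      refine (measure_mono ((T_mono φ Set.subset_union_left n).trans
        (T_subset φ K hK h0 hcov n))).trans ?_
      have := upper_measure μ K U' (hTfin n).toFinset
      rwa [(hTfin n).coe_toFinset] at this
    have h2 : 0 < μ (T φ U n) := by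
      refine lt_of_lt_of_le (haar_pos μ hUn) (measure_mono ?_)
      obtain ⟨m, rfl⟩ := Nat.exists_eq_succ_of_ne_zero (by omega : n ≠ 0)
      rw [Nat.succ_eq_add_one, T_succ]
      intro x hx
      exact ⟨x, hx, 0, ⟨0, zero_mem_T φ (mem_of_mem_nhds hUn) m, map_zero _⟩, by simp⟩
    have h3 : (μ (T φ U n)).toReal ≤ (hTfin n).toFinset.card * (μ U').toReal := by
      have := ENNReal.toReal_mono (ENNReal.mul_ne_top (ENNReal.natCast_ne_top _) hU't.ne) h1
      rwa [ENNReal.toReal_mul, ENNReal.toReal_natCast] at this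
    have h4 : 0 < (μ (T φ U n)).toReal :=
      ENNReal.toReal_pos h2.ne' (T_compact φ hφ hU n).measure_lt_top.ne
    have h5 := Real.log_le_log h4 h3
    rw [Real.log_mul (by exact_mod_cast hpos.ne') (ENNReal.toReal_pos hU'0.ne' hU't.ne).ne'] at h5
    linarith
  have hle : HA μ φ U ≤ HA ν (restr φ K hK) F := by
    unfold HA
    apply limsup_compare _ _ (Real.log (μ U').toReal - Real.log (ν {0}).toReal)
    filter_upwards [eventually_ge_atTop 1] with n hn
    exact hmain n hn
  refine hle.trans ?_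
  have hFc : IsCompact F := hFfin.isCompact
  have hFn : F ∈ 𝓝 (0 : K) := by rw [nhds_discrete]; exact hF0
  exact le_iSup_of_le F (le_iSup_of_le hFc (le_iSup_of_le hFn le_rfl))

lemma lower [DiscreteTopology K] (hφ : Continuous φ)
    (ν : Measure K) [ν.IsAddHaarMeasure] : hA ν (restr φ K hK) ≤ hA μ φ := by
  unfold hA
  refine iSup_le fun F => iSup_le fun hF => iSup_le fun hFn => ?_
  have hFfin : F.Finite := hF.finite_of_discrete
  have hF0 : (0 : K) ∈ F := mem_of_mem_nhds hFn
  obtain ⟨V, hVc, hVn, hVK⟩ := exists_small K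
  have hV0 : (0 : G) ∈ V := mem_of_mem_nhds hVn
  set U : Set G := V + ((↑) : K → G) '' F with hU
  have hUc : IsCompact U := hVc.add (hF.image continuous_subtype_val)
  have hUn : U ∈ 𝓝 (0 : G) := by
    refine mem_of_superset hVn ?_
    intro x hx
    exact ⟨x, hx, 0, ⟨0, hF0, rfl⟩, by simp⟩
  have hTfin : ∀ n, (T (restr φ K hK) F n).Finite := fun n => T_finite _ hFfin n
  have hT0 : ∀ n, (0 : K) ∈ T (restr φ K hK) F n := fun n => zero_mem_T _ hF0 n
  have hVp : 0 < μ V := haar_pos μ hVn
  have hVt : μ V < ⊤ := hVc.measure_lt_top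
  have hmain : ∀ n : ℕ, 1 ≤ n → Real.log (ν (T (restr φ K hK) F n)).toReal ≤
      Real.log (μ (T φ U n)).toReal + (Real.log (ν {0}).toReal - Real.log (μ V).toReal) := by
    intro n hn
    rw [log_discrete K ν (hTfin n) (hT0 n)]
    have hpos : 0 < (hTfin n).toFinset.card := Finset.card_pos.2 ⟨0, by simpa using hT0 n⟩
    have h1 : (hTfin n).toFinset.card * μ V ≤ μ (T φ U n) := by
      have h2 := lower_measure μ K hVc hVK (hTfin n).toFinset
      rw [(hTfin n).coe_toFinset] at h2
      refine h2.trans (measure_mono ?_)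
      obtain ⟨m, rfl⟩ := Nat.exists_eq_succ_of_ne_zero (by omega : n ≠ 0)
      exact subset_T_succ φ K hK hV0 F m
    have h3 : (hTfin n).toFinset.card * (μ V).toReal ≤ (μ (T φ U n)).toReal := by
      have := ENNReal.toReal_mono (T_compact φ hφ hUc n).measure_lt_top.ne h1
      rwa [ENNReal.toReal_mul, ENNReal.toReal_natCast] at this
    have hVr : 0 < (μ V).toReal := ENNReal.toReal_pos hVp.ne' hVt.ne
    have h5 := Real.log_le_log (mul_pos (by exact_mod_cast hpos) hVr) h3
    rw [Real.log_mul (by exact_mod_cast hpos.ne') hVr.ne'] at h5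
    linarith
  have hle : HA ν (restr φ K hK) F ≤ HA μ φ U := by
    unfold HA
    apply limsup_compare _ _ (Real.log (ν {0}).toReal - Real.log (μ V).toReal)
    filter_upwards [eventually_ge_atTop 1] with n hn
    exact hmain n hn
  exact hle.trans (le_iSup_of_le U (le_iSup_of_le hUc (le_iSup_of_le hUn le_rfl)))

end

/-- The algebraic entropy of an endomorphism of a locally compact abelian group equals that of its
restriction to any invariant uniform discrete subgroup. -/
theorem result {G : Type*} [AddCommGroup G] [TopologicalSpace G] [IsTopologicalAddGroup G]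
    [T2Space G] [LocallyCompactSpace G] [MeasurableSpace G] [BorelSpace G]
    (φ : G →+ G) (hφ : Continuous φ) (K : AddSubgroup G) (hK : ∀ x ∈ K, φ x ∈ K)
    [DiscreteTopology K] [CompactSpace (G ⧸ K)]
    (μ : Measure G) [μ.IsAddHaarMeasure] (ν : Measure K) [ν.IsAddHaarMeasure] :
    hA μ φ = hA ν (restr φ K hK) :=
  le_antisymm (upper μ φ K hK hφ ν) (lower μ φ K hK hφ ν)

end Pool.Agent.Results.MP_5d7a45_an.UniformDiscrete
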